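import Pool.Agent.OneSeq.Core

/-!
# MP_c4eb1c_pr: every deterministic sequence of scales, or one explicit sequence

For a random function with almost surely Hölder continuous paths (the geodesic of the directed
landscape and its weight function are of this kind) almost sure convergence of the `α`-variation
along EVERY deterministic sequence of scales, along the ONE sequence `(n + 1) ^ (-c)` and through
all reals `ε → 0` are equivalent, and follow from a tail bound `K ε ^ p` with `p > 1`.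
-/

open Filter Topology MeasureTheory Pool.Agent.OneSeq

/-- **Q1 and Q2 of `MP_c4eb1c_pr` are statements about one explicit sequence.**  `X` is a random
function whose paths are almost surely Hölder continuous with exponent `h` on `[0, 1]`, `α ≥ 1`. -/
theorem Pool.Agent.Results.MP_c4eb1c_pr.OneSequence.result {Ω : Type*} [MeasurableSpace Ω]
    (P : Measure Ω) [IsProbabilityMeasure P] (X : Ω → ℝ → ℝ) (α : ℝ) (hα : 1 ≤ α) (h : ℝ)
    (hh : 0 < h) (hX : ∀ᵐ ω ∂P, Hol h (X ω)) (ν : ℝ) :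
    -- (1) all deterministic sequences, one explicit sequence, all reals
    (∀ c : ℝ, 0 < c → c ≤ 1 → c * (1 + h - α * h) < h →
      List.TFAE [∀ᵐ ω ∂P, Tendsto (V α (X ω)) (𝓝[>] 0) (𝓝 ν),
        ∀ ε : ℕ → ℝ, (∀ n, 0 < ε n) → Tendsto ε atTop (𝓝 0) →
          ∀ᵐ ω ∂P, Tendsto (fun n => V α (X ω) (ε n)) atTop (𝓝 ν),
        ∀ᵐ ω ∂P, Tendsto (fun n : ℕ => V α (X ω) (((n : ℝ) + 1) ^ (-c))) atTop (𝓝 ν)] ∧
      -- the two events agree up to a null set
      ∀ᵐ ω ∂P, (Tendsto (fun n : ℕ => V α (X ω) (((n : ℝ) + 1) ^ (-c))) atTop (𝓝 ν) ↔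
        Tendsto (V α (X ω)) (𝓝[>] 0) (𝓝 ν))) ∧
    -- (2) a tail bound
    (∀ p : ℝ, 1 < p → 1 + h - α * h < p * h →
      (∀ δ : ℝ, 0 < δ → ∃ K : ℝ, ∀ᶠ ε in 𝓝[>] (0 : ℝ),
        P {ω | δ < |V α (X ω) ε - ν|} ≤ ENNReal.ofReal (K * ε ^ p)) →
      ∀ᵐ ω ∂P, Tendsto (V α (X ω)) (𝓝[>] 0) (𝓝 ν)) := by
  refine ⟨fun c hc hc1 hch => ⟨three hα hh hc hc1 hch P X hX ν, ?_⟩,
    fun p hp hph ht => criterion hα hh hp hph P X hX ν ht⟩
  filter_upwards [hX] with ω hω
  refine ⟨path hα hh hc hc1 hch hω, fun h1 => ?_⟩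
  exact h1.comp (tendsto_nhdsWithin_iff.2 ⟨grid_tendsto hc, Eventually.of_forall (grid_pos c)⟩)
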